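import Pool.Agent.X17.DD.Sets

/-!
# Limits of ratios of double-descent set counts

`dd(I; n)` is the number of permutations of `n` letters whose double descent set is `I`. For all
finite sets `I, J` of integers `≥ 2` with `dd(I; n) > 0` and `dd(J; n) > 0` for all large `n`, the ratio
`dd(I; n) / dd(J; n)` converges to a positive real number.

Proof. Inclusion and exclusion over the decreasing run after the beginning that contains `I` expresses
`dd(I; n)` by the numbers `dd(∅; m)`; with `x₀ = 2π / (3√3)` the sequence `dd(∅; n) x₀ⁿ / n!` converges to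
a positive number (the quotient of the reciprocal of the generating function by `1 - x / x₀` is
invertible in the algebra of absolutely convergent power series), hence so does `dd(I; n) x₀ⁿ / n!`
by dominated convergence. The limit is positive, as a beginning with double descent set `I` that ends
with an ascent can be followed by any permutation without double descents that starts with an ascent.
-/

set_option autoImplicit false

namespace Pool.Agent.Results.MP_ff54ac_co.RatioLimit

open Filter Topology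

/-- `i` is a double descent of `π`: `2 ≤ i ≤ n - 1` and `π(i-1) > π(i) > π(i+1)`. Here the positions
are `1, …, n`; position `k` is the element `k - 1` of `Fin n`. -/
def IsDoubleDescent {n : ℕ} (π : Equiv.Perm (Fin n)) (i : ℕ) : Prop :=
  ∃ (_ : 2 ≤ i) (_ : i < n),
    π ⟨i - 1, by omega⟩ < π ⟨i - 2, by omega⟩ ∧ π ⟨i, by omega⟩ < π ⟨i - 1, by omega⟩

/-- The number of permutations of `n` letters with double descent set `I`. -/
noncomputable def dd (I : Finset ℕ) (n : ℕ) : ℕ :=
  Nat.card {π : Equiv.Perm (Fin n) // ∀ i : ℕ, IsDoubleDescent π i ↔ i ∈ I}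

lemma isDD_iff {n : ℕ} (π : Equiv.Perm (Fin n)) (i : ℕ) :
    IsDoubleDescent π (i + 2) ↔ Pool.Agent.X17.DD.Dn π i ∧ Pool.Agent.X17.DD.Dn π (i + 1) := by
  unfold IsDoubleDescent Pool.Agent.X17.DD.Dn
  constructor
  · rintro ⟨h1, h2, h3, h4⟩
    exact ⟨⟨by omega, h3⟩, ⟨h2, h4⟩⟩
  · rintro ⟨⟨h1, h2⟩, ⟨h3, h4⟩⟩
    exact ⟨by omega, h3, h2, h4⟩

lemma dd_eq {I : Finset ℕ} (hI : ∀ i ∈ I, 2 ≤ i) (n : ℕ) :
    dd I n = Pool.Agent.X17.DD.num n (Pool.Agent.X17.DD.Ex fun i => i + 2 ∈ I) := by
  unfold dd Pool.Agent.X17.DD.num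
  refine Nat.card_congr (Equiv.subtypeEquivRight fun π => ?_)
  unfold Pool.Agent.X17.DD.Ex
  constructor
  · intro h i
    rw [← isDD_iff, h]
  · intro h i
    by_cases hi : 2 ≤ i
    · obtain ⟨k, rfl⟩ := Nat.exists_eq_add_of_le' hi
      rw [isDD_iff]
      exact (h k).symm
    · constructor
      · rintro ⟨h1, _⟩
        exact absurd h1 hi
      · intro h1
        exact absurd (hI i h1) hi

lemma fin_set (I : Finset ℕ) : ∃ N, ∀ i, N ≤ i → ¬ (i + 2 ∈ I) := by
  refine ⟨I.sup id + 1, fun i hi h => ?_⟩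
  have : i + 2 ≤ I.sup id := Finset.le_sup (f := id) h
  omega

/-- **Theorem.** Let `I`, `J` be finite sets of integers `≥ 2` such that `dd(I; n)` and `dd(J; n)` are
positive for all large `n`. Then `dd(I; n) / dd(J; n)` converges to a positive real number. -/
theorem result (I J : Finset ℕ) (hI : ∀ i ∈ I, 2 ≤ i) (hJ : ∀ i ∈ J, 2 ≤ i)
    (hI' : ∀ᶠ n in atTop, 0 < dd I n) (hJ' : ∀ᶠ n in atTop, 0 < dd J n) :
    ∃ c : ℝ, 0 < c ∧ Tendsto (fun n : ℕ => (dd I n : ℝ) / (dd J n : ℝ)) atTop (𝓝 c) := by
  simp only [dd_eq hI, dd_eq hJ] at *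
  exact Pool.Agent.X17.DD.ratio _ _ (fin_set I) (fin_set J) hI' hJ'

end Pool.Agent.Results.MP_ff54ac_co.RatioLimit
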